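import Mathlib
import Pool.Agent.V11196.GP.Iwa
import Pool.Agent.V11196.GP.Ineq

/-!
# Average g-purity does not decrease under complexified free operations

For every real Lie algebra `span_ℝ {i g_1, …, i g_D}` of skew-Hermitian matrices with
`Tr (g_i g_j) = c δ_ij`, every finite family `M_k` of complexified free operations with
`∑ M_k† M_k = 1` and every unit vector `ψ`, the average purity after the channel is at least the
purity of `ψ`.
-/

open scoped Matrix ComplexOrder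

set_option linter.unusedSectionVars false

namespace Pool.Agent.Results.MP_5b3ffa_mp.AveragePurity

open Pool.Agent.V11196.GP

variable {n ι κ : Type*} [Fintype n] [DecidableEq n] [Fintype ι] [DecidableEq ι] [Fintype κ]

/-- The real span of the skew-Hermitian matrices `i g_j`. -/
noncomputable def LieAlg (g : ι → Matrix n n ℂ) : Submodule ℝ (Matrix n n ℂ) :=
  Submodule.span ℝ (Set.range fun j => Complex.I • g j)

/-- The `g j` are Hermitian and mutually orthogonal with common norm `c`, and the real span of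
the `i g_j` is closed under commutators. -/
structure IsSetup (g : ι → Matrix n n ℂ) (c : ℝ) : Prop where
  c_pos : 0 < c
  herm : ∀ j, (g j)ᴴ = g j
  orth : ∀ i j, (g i * g j).trace = if i = j then (c : ℂ) else 0
  lie : ∀ X ∈ LieAlg g, ∀ Y ∈ LieAlg g, X * Y - Y * X ∈ LieAlg g

/-- The complexification of the Lie algebra. -/
def Cplx (g : ι → Matrix n n ℂ) : Set (Matrix n n ℂ) :=
  {X | ∃ A ∈ LieAlg g, ∃ B ∈ LieAlg g, X = A + Complex.I • B}

/-- Complexified free operations: generated by the exponentials of elements of the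
complexification and by nonzero complex scalar multiples. -/
inductive IsCFO (g : ι → Matrix n n ℂ) : Matrix n n ℂ → Prop
  | exp (X : Matrix n n ℂ) (hX : X ∈ Cplx g) : IsCFO g (NormedSpace.exp X)
  | mul (A B : Matrix n n ℂ) (hA : IsCFO g A) (hB : IsCFO g B) : IsCFO g (A * B)
  | smul (z : ℂ) (A : Matrix n n ℂ) (hz : z ≠ 0) (hA : IsCFO g A) : IsCFO g (z • A)

/-- The purity of a density matrix, with normalisation `N`. -/
noncomputable def purity (g : ι → Matrix n n ℂ) (N : ℝ) (ρ : Matrix n n ℂ) : ℝ :=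
  (∑ i, ((ρ * g i).trace).re ^ 2) / N

/-- `|ψ⟩⟨ψ|` -/
def proj (ψ : n → ℂ) : Matrix n n ℂ := Matrix.vecMulVec ψ (star ψ)

/-- `⟨ψ|M† M|ψ⟩` -/
noncomputable def prob (M : Matrix n n ℂ) (ψ : n → ℂ) : ℝ := (star ψ ⬝ᵥ ((Mᴴ * M) *ᵥ ψ)).re

/-- `M|ψ⟩ / √⟨ψ|M† M|ψ⟩` -/
noncomputable def post (M : Matrix n n ℂ) (ψ : n → ℂ) : n → ℂ :=
  ((Real.sqrt (prob M ψ) : ℝ) : ℂ)⁻¹ • (M *ᵥ ψ)

/-- complex span of the generators -/
def VV (g : ι → Matrix n n ℂ) : Submodule ℂ (Matrix n n ℂ) := Submodule.span ℂ (Set.range g)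

theorem g_mem (g : ι → Matrix n n ℂ) (j : ι) : g j ∈ VV g :=
  Submodule.subset_span ⟨j, rfl⟩

theorem lie_le (g : ι → Matrix n n ℂ) (X : Matrix n n ℂ) (hX : X ∈ LieAlg g) : X ∈ VV g := by
  unfold LieAlg at hX
  induction hX using Submodule.span_induction with
  | mem x hx =>
    obtain ⟨j, rfl⟩ := hx
    exact (VV g).smul_mem _ (g_mem g j)
  | zero => exact (VV g).zero_mem
  | add x y _ _ hx hy => exact (VV g).add_mem hx hy
  | smul r x _ hx =>
    have : r • x = (r : ℂ) • x := by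
      ext i j
      simp
    rw [this]
    exact (VV g).smul_mem _ hx

theorem cplx_le (g : ι → Matrix n n ℂ) (X : Matrix n n ℂ) (hX : X ∈ Cplx g) : X ∈ VV g := by
  obtain ⟨A, hA, B, hB, rfl⟩ := hX
  exact (VV g).add_mem (lie_le g A hA) ((VV g).smul_mem _ (lie_le g B hB))

theorem comm_gen {g : ι → Matrix n n ℂ} {c : ℝ} (h : IsSetup g c) (i j : ι) :
    g i * g j - g j * g i ∈ VV g := by
  have hi : Complex.I • g i ∈ LieAlg g := Submodule.subset_span ⟨i, rfl⟩
  have hj : Complex.I • g j ∈ LieAlg g := Submodule.subset_span ⟨j, rfl⟩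
  have h1 := lie_le g _ (h.lie _ hi _ hj)
  have h2 : (Complex.I • g i) * (Complex.I • g j) - (Complex.I • g j) * (Complex.I • g i)
      = (-1 : ℂ) • (g i * g j - g j * g i) := by
    rw [Matrix.smul_mul, Matrix.mul_smul, Matrix.smul_mul, Matrix.mul_smul, smul_smul, smul_smul,
      Complex.I_mul_I, smul_sub]
  rw [h2] at h1
  have h3 := (VV g).smul_mem (-1 : ℂ) h1
  rw [smul_smul, neg_one_mul, neg_neg, one_smul] at h3
  exact h3

theorem comm_mem {g : ι → Matrix n n ℂ} {c : ℝ} (h : IsSetup g c) (X Y : Matrix n n ℂ)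
    (hX : X ∈ VV g) (hY : Y ∈ VV g) : X * Y - Y * X ∈ VV g := by
  have h1 : ∀ i, ∀ Y ∈ VV g, g i * Y - Y * g i ∈ VV g := by
    intro i Y hY
    unfold VV at hY
    induction hY using Submodule.span_induction with
    | mem y hy =>
      obtain ⟨j, rfl⟩ := hy
      exact comm_gen h i j
    | zero => simp
    | add x y _ _ hx hy =>
      have : g i * (x + y) - (x + y) * g i = (g i * x - x * g i) + (g i * y - y * g i) := by
        noncomm_ring
      rw [this]
      exact (VV g).add_mem hx hy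
    | smul r x _ hx =>
      have : g i * (r • x) - (r • x) * g i = r • (g i * x - x * g i) := by
        rw [Matrix.mul_smul, Matrix.smul_mul, smul_sub]
      rw [this]
      exact (VV g).smul_mem _ hx
  unfold VV at hX
  induction hX using Submodule.span_induction with
  | mem x hx =>
    obtain ⟨j, rfl⟩ := hx
    exact h1 j Y hY
  | zero => simp
  | add x y _ _ hx hy =>
    have : (x + y) * Y - Y * (x + y) = (x * Y - Y * x) + (y * Y - Y * y) := by
      noncomm_ring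
    rw [this]
    exact (VV g).add_mem hx hy
  | smul r x _ hx =>
    have : (r • x) * Y - Y * (r • x) = r • (x * Y - Y * x) := by
      rw [Matrix.mul_smul, Matrix.smul_mul, smul_sub]
    rw [this]
    exact (VV g).smul_mem _ hx

theorem conj_mem {g : ι → Matrix n n ℂ} {c : ℝ} (h : IsSetup g c) (X : Matrix n n ℂ)
    (hX : X ∈ VV g) : Xᴴ ∈ VV g := by
  unfold VV at hX
  induction hX using Submodule.span_induction with
  | mem x hx =>
    obtain ⟨j, rfl⟩ := hx
    rw [h.herm]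
    exact g_mem g j
  | zero => simp
  | add x y _ _ hx hy =>
    rw [Matrix.conjTranspose_add]
    exact (VV g).add_mem hx hy
  | smul r x _ hx =>
    rw [Matrix.conjTranspose_smul]
    exact (VV g).smul_mem _ hx

theorem cfo_nz {g : ι → Matrix n n ℂ} {c : ℝ} (h : IsSetup g c) (M : Matrix n n ℂ)
    (hM : IsCFO g M) : Nz (VV g) M ∧ Nz (VV g) Mᴴ := by
  induction hM with
  | exp X hX =>
    have hX' := cplx_le g X hX
    refine ⟨Nz.exp X fun Y hY => comm_mem h X Y hX' hY, ?_⟩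
    rw [← Matrix.exp_conjTranspose]
    exact Nz.exp Xᴴ fun Y hY => comm_mem h Xᴴ Y (conj_mem h X hX') hY
  | mul A B _ _ ihA ihB =>
    refine ⟨ihA.1.mul ihB.1, ?_⟩
    rw [Matrix.conjTranspose_mul]
    exact ihB.2.mul ihA.2
  | smul z A hz _ ih =>
    refine ⟨ih.1.smul hz, ?_⟩
    rw [Matrix.conjTranspose_smul]
    exact ih.2.smul (star_ne_zero.mpr hz)

theorem trace_gen {g : ι → Matrix n n ℂ} {c : ℝ} (h : IsSetup g c) (z : ι → ℂ) (j : ι) :
    (g j * ∑ i, z i • g i).trace = z j * c := by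
  rw [Matrix.mul_sum, Matrix.trace_sum]
  simp only [Matrix.mul_smul, Matrix.trace_smul, h.orth, smul_eq_mul, mul_ite, mul_zero]
  simp

theorem herm_real {g : ι → Matrix n n ℂ} {c : ℝ} (h : IsSetup g c) (X : Matrix n n ℂ)
    (hX : X ∈ VV g) (hH : Xᴴ = X) : ∃ β : ι → ℝ, X = ∑ i, ((β i : ℝ) : ℂ) • g i := by
  obtain ⟨z, hz⟩ := (Submodule.mem_span_range_iff_exists_fun ℂ).mp hX
  have hc : (c : ℂ) ≠ 0 := by
    exact_mod_cast h.c_pos.ne'
  refine ⟨fun i => (z i).re, ?_⟩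
  rw [← hz]
  refine Finset.sum_congr rfl fun i _ => ?_
  congr 1
  have h1 : (g i * X).trace = z i * c := by
    rw [← hz]
    exact trace_gen h z i
  have h2 : star (g i * X).trace = (g i * X).trace := by
    rw [← Matrix.trace_conjTranspose, Matrix.conjTranspose_mul, hH, h.herm, Matrix.trace_mul_comm]
  rw [h1] at h2
  have h3 : star (z i) = z i := by
    have : star (z i * (c : ℂ)) = star (z i) * c := by
      rw [star_mul']
      congr 1
      exact Complex.conj_ofReal c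
    rw [this] at h2
    exact mul_right_cancel₀ hc h2
  exact (Complex.conj_eq_iff_re.mp h3).symm

theorem trace_sq {g : ι → Matrix n n ℂ} {c : ℝ} (h : IsSetup g c) (β : ι → ℝ) :
    ((∑ i, ((β i : ℝ) : ℂ) • g i) * (∑ i, ((β i : ℝ) : ℂ) • g i)).trace
      = (((∑ i, β i ^ 2) * c : ℝ) : ℂ) := by
  rw [Matrix.sum_mul, Matrix.trace_sum]
  have : ∀ j, (((β j : ℝ) : ℂ) • g j * ∑ i, ((β i : ℝ) : ℂ) • g i).trace
      = (β j : ℂ) * ((β j : ℂ) * c) := by
    intro j
    rw [Matrix.smul_mul, Matrix.trace_smul, trace_gen h (fun i => ((β i : ℝ) : ℂ)) j, smul_eq_mul]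
  rw [Finset.sum_congr rfl fun j _ => this j]
  push_cast
  rw [Finset.sum_mul]
  refine Finset.sum_congr rfl fun j _ => ?_
  ring

/-- expectation value -/
noncomputable def ev (g : ι → Matrix n n ℂ) (v : n → ℂ) (i : ι) : ℝ := (star v ⬝ᵥ (g i *ᵥ v)).re

theorem ev_sum (g : ι → Matrix n n ℂ) (β : ι → ℝ) (v : n → ℂ) :
    (star v ⬝ᵥ ((∑ i, ((β i : ℝ) : ℂ) • g i) *ᵥ v)).re = ∑ i, β i * ev g v i := by
  rw [Matrix.sum_mulVec, dotProduct_sum, Complex.re_sum]
  refine Finset.sum_congr rfl fun i _ => ?_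
  rw [Matrix.smul_mulVec, dotProduct_smul, smul_eq_mul, Complex.re_ofReal_mul]
  rfl

theorem ev_smul (g : ι → Matrix n n ℂ) (r : ℝ) (v : n → ℂ) (i : ι) :
    ev g ((r : ℂ) • v) i = r ^ 2 * ev g v i := by
  unfold ev
  rw [Matrix.mulVec_smul, star_smul, smul_dotProduct, dotProduct_smul, smul_eq_mul, smul_eq_mul,
    Complex.star_def, Complex.conj_ofReal, Complex.re_ofReal_mul, Complex.re_ofReal_mul]
  ring

theorem purity_eq (g : ι → Matrix n n ℂ) (N : ℝ) (v : n → ℂ) :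
    purity g N (proj v) = (∑ i, ev g v i ^ 2) / N := by
  unfold purity proj ev
  congr 1
  refine Finset.sum_congr rfl fun i _ => ?_
  rw [Matrix.vecMulVec_mul, Matrix.trace_vecMulVec, dotProduct_comm, ← Matrix.dotProduct_mulVec]

theorem prob_eq (M : Matrix n n ℂ) (v : n → ℂ) : prob M v = nsq (M *ᵥ v) := by
  unfold prob
  rw [← star_mulVec_dot, nsq_eq, Complex.ofReal_re]

theorem nsq_nonneg (v : n → ℂ) : 0 ≤ nsq v :=
  Finset.sum_nonneg fun _ _ => by positivity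

theorem ev_post (g : ι → Matrix n n ℂ) (M : Matrix n n ℂ) (v : n → ℂ) (i : ι) :
    prob M v * ev g (post M v) i = ev g (M *ᵥ v) i := by
  have hp : 0 ≤ prob M v := by
    rw [prob_eq]
    exact nsq_nonneg _
  have h1 : post M v = (((Real.sqrt (prob M v))⁻¹ : ℝ) : ℂ) • (M *ᵥ v) := by
    unfold post
    rw [Complex.ofReal_inv]
  rw [h1, ev_smul, inv_pow, Real.sq_sqrt hp]
  rcases hp.eq_or_lt with h | h
  · have h2 : M *ᵥ v = 0 := by
      rw [prob_eq] at h
      funext j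
      have h3 := (Finset.sum_eq_zero_iff_of_nonneg (s := Finset.univ)
        (f := fun j => ‖(M *ᵥ v) j‖ ^ 2) (fun _ _ => by positivity)).mp h.symm j
          (Finset.mem_univ j)
      simpa using h3
    rw [h2]
    simp [ev]
  · rw [← mul_assoc, mul_inv_cancel₀ h.ne', one_mul]

theorem quad (W : Matrix n n ℂ) (α : n → ℝ) (v : n → ℂ) :
    (star v ⬝ᵥ ((W * Matrix.diagonal (fun i => (α i : ℂ)) * Wᴴ) *ᵥ v)).re
      = ∑ i, α i * ‖(Wᴴ *ᵥ v) i‖ ^ 2 := by
  have h1 : star v ⬝ᵥ ((W * Matrix.diagonal (fun i => (α i : ℂ)) * Wᴴ) *ᵥ v)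
      = star (Wᴴ *ᵥ v) ⬝ᵥ (Matrix.diagonal (fun i => (α i : ℂ)) *ᵥ (Wᴴ *ᵥ v)) := by
    rw [Matrix.mulVec_mulVec, star_mulVec_dot, Matrix.conjTranspose_conjTranspose,
      Matrix.mul_assoc]
  rw [h1]
  generalize Wᴴ *ᵥ v = w
  unfold dotProduct
  rw [Complex.re_sum]
  refine Finset.sum_congr rfl fun i _ => ?_
  rw [Matrix.mulVec_diagonal, Pi.star_apply, Complex.star_def]
  have : (starRingEnd ℂ) (w i) * ((α i : ℂ) * w i)
      = ((α i * ‖w i‖ ^ 2 : ℝ) : ℂ) := by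
    rw [← Complex.normSq_eq_norm_sq, Complex.ofReal_mul, Complex.normSq_eq_conj_mul_self]
    ring
  rw [this, Complex.ofReal_re]

theorem had_comm {W : Matrix n n ℂ} (hW : W * Wᴴ = 1) (α : n → ℝ) (X : Matrix n n ℂ) :
    Had W (fun i j => (α i : ℂ) - (α j : ℂ)) X
      = (W * Matrix.diagonal (fun i => (α i : ℂ)) * Wᴴ) * X
        - X * (W * Matrix.diagonal (fun i => (α i : ℂ)) * Wᴴ) := by
  unfold Had
  have h1 : (Matrix.of fun i j => ((α i : ℂ) - (α j : ℂ)) * (Wᴴ * X * W) i j)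
      = Matrix.diagonal (fun i => (α i : ℂ)) * (Wᴴ * X * W)
        - (Wᴴ * X * W) * Matrix.diagonal (fun i => (α i : ℂ)) := by
    ext i j
    rw [Matrix.sub_apply, Matrix.mul_diagonal, Matrix.diagonal_mul]
    simp only [Matrix.of_apply]
    ring
  rw [h1, Matrix.mul_sub, Matrix.sub_mul]
  congr 1
  · calc W * (Matrix.diagonal (fun i => (α i : ℂ)) * (Wᴴ * X * W)) * Wᴴ
        = (W * Matrix.diagonal (fun i => (α i : ℂ)) * Wᴴ) * X * (W * Wᴴ) := by
          simp only [Matrix.mul_assoc]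
      _ = _ := by rw [hW, Matrix.mul_one]
  · calc W * ((Wᴴ * X * W) * Matrix.diagonal (fun i => (α i : ℂ))) * Wᴴ
        = (W * Wᴴ) * (X * (W * Matrix.diagonal (fun i => (α i : ℂ)) * Wᴴ)) := by
          simp only [Matrix.mul_assoc]
      _ = _ := by rw [hW, Matrix.one_mul]

theorem key {g : ι → Matrix n n ℂ} {c : ℝ} (h : IsSetup g c) (M : κ → Matrix n n ℂ)
    (hM : ∀ k, IsCFO g (M k)) (hsum : ∑ k, (M k)ᴴ * M k = 1) (ψ : n → ℂ) :
    ∃ β : κ → ι → ℝ, (∀ k, ∑ i, β k i ^ 2 = ∑ i, ev g ψ i ^ 2) ∧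
      ∑ i, ev g ψ i ^ 2 ≤ ∑ k, ∑ i, β k i * ev g (M k *ᵥ ψ) i := by
  let a : Matrix n n ℂ := ∑ i, ((ev g ψ i : ℝ) : ℂ) • g i
  have haV : a ∈ VV g := (VV g).sum_mem fun i _ => (VV g).smul_mem _ (g_mem g i)
  have haH : aᴴ = a := by
    show (∑ i, ((ev g ψ i : ℝ) : ℂ) • g i)ᴴ = ∑ i, ((ev g ψ i : ℝ) : ℂ) • g i
    rw [Matrix.conjTranspose_sum]
    refine Finset.sum_congr rfl fun i _ => ?_
    rw [Matrix.conjTranspose_smul, h.herm, Complex.star_def, Complex.conj_ofReal]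
  obtain ⟨W, α, hW, haW, _⟩ := spectral_form (S := a) haH
  have hW' : W * Wᴴ = 1 := mul_eq_one_comm.mp hW
  have hHad : ∀ X ∈ VV g, Had W (fun i j => (α i : ℂ) - (α j : ℂ)) X ∈ VV g := by
    intro X hX
    rw [had_comm hW', ← haW]
    exact comm_mem h a X haV hX
  have hdec := fun k => iwasawa (VV g) (M k) (cfo_nz h (M k) (hM k)).1 (cfo_nz h (M k) (hM k)).2
    W hW α hHad
  choose U hU hUV hUt using hdec
  have hU' : ∀ k, U k * (U k)ᴴ = 1 := fun k => mul_eq_one_comm.mp (hU k)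
  -- the rotated elements
  have hbH : ∀ k, (U k * a * (U k)ᴴ)ᴴ = U k * a * (U k)ᴴ := by
    intro k
    rw [Matrix.conjTranspose_mul, Matrix.conjTranspose_mul, Matrix.conjTranspose_conjTranspose,
      haH, Matrix.mul_assoc]
  choose β hβ using fun k => herm_real h (U k * a * (U k)ᴴ) (hUV k a haV) (hbH k)
  have hc : (c : ℝ) ≠ 0 := h.c_pos.ne'
  refine ⟨β, fun k => ?_, ?_⟩
  · have h1 : (U k * a * (U k)ᴴ * (U k * a * (U k)ᴴ)).trace = (a * a).trace := by
      calc (U k * a * (U k)ᴴ * (U k * a * (U k)ᴴ)).trace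
          = (U k * (a * ((U k)ᴴ * U k) * a * (U k)ᴴ)).trace := by simp only [Matrix.mul_assoc]
        _ = (U k * (a * a * (U k)ᴴ)).trace := by rw [hU, Matrix.mul_one]
        _ = ((a * a * (U k)ᴴ) * U k).trace := Matrix.trace_mul_comm _ _
        _ = (a * a * ((U k)ᴴ * U k)).trace := by rw [Matrix.mul_assoc]
        _ = (a * a).trace := by rw [hU, Matrix.mul_one]
    have h2 : (a * a).trace = (((∑ i, ev g ψ i ^ 2) * c : ℝ) : ℂ) := trace_sq h _
    rw [h2, hβ k, trace_sq h] at h1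
    exact mul_right_cancel₀ hc (Complex.ofReal_injective h1)
  · -- triangular matrices
    have hC : ∑ k, (Wᴴ * (U k)ᴴ * M k * W)ᴴ * (Wᴴ * (U k)ᴴ * M k * W) = 1 := by
      have h1 : ∀ k, (Wᴴ * (U k)ᴴ * M k * W)ᴴ * (Wᴴ * (U k)ᴴ * M k * W)
          = Wᴴ * ((M k)ᴴ * M k) * W := by
        intro k
        rw [Matrix.conjTranspose_mul, Matrix.conjTranspose_mul, Matrix.conjTranspose_mul,
          Matrix.conjTranspose_conjTranspose, Matrix.conjTranspose_conjTranspose]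
        calc Wᴴ * ((M k)ᴴ * (U k * W)) * (Wᴴ * (U k)ᴴ * M k * W)
            = Wᴴ * ((M k)ᴴ * (U k * (W * Wᴴ) * (U k)ᴴ) * M k) * W := by
              simp only [Matrix.mul_assoc]
          _ = Wᴴ * ((M k)ᴴ * M k) * W := by
              rw [hW', Matrix.mul_one, hU', Matrix.mul_one]
      rw [Finset.sum_congr rfl fun k _ => h1 k, ← Matrix.sum_mul, ← Matrix.mul_sum, hsum,
        Matrix.mul_one, hW]
    have h2 := triangular_ineq α (fun k => Wᴴ * (U k)ᴴ * M k * W) hC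
      (fun k i j hij => hUt k i j hij) (Wᴴ *ᵥ ψ)
    have h3 : ∑ i, α i * ‖(Wᴴ *ᵥ ψ) i‖ ^ 2 = ∑ i, ev g ψ i ^ 2 := by
      rw [← quad, ← haW]
      show (star ψ ⬝ᵥ ((∑ i, ((ev g ψ i : ℝ) : ℂ) • g i) *ᵥ ψ)).re = _
      rw [ev_sum]
      refine Finset.sum_congr rfl fun i _ => ?_
      ring
    rw [h3] at h2
    refine h2.trans (le_of_eq ?_)
    refine Finset.sum_congr rfl fun k _ => ?_
    have h4 : (Wᴴ * (U k)ᴴ * M k * W) *ᵥ (Wᴴ *ᵥ ψ) = Wᴴ *ᵥ ((U k)ᴴ *ᵥ (M k *ᵥ ψ)) := by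
      rw [Matrix.mulVec_mulVec, Matrix.mulVec_mulVec, Matrix.mulVec_mulVec]
      congr 1
      calc Wᴴ * (U k)ᴴ * M k * W * Wᴴ = Wᴴ * (U k)ᴴ * M k * (W * Wᴴ) := by
            simp only [Matrix.mul_assoc]
        _ = Wᴴ * (U k)ᴴ * M k := by rw [hW', Matrix.mul_one]
    rw [h4, ← quad, ← haW, ← ev_sum, ← hβ k]
    congr 1
    generalize M k *ᵥ ψ = v
    rw [Matrix.mulVec_mulVec, star_mulVec_dot, Matrix.conjTranspose_conjTranspose,
      ← Matrix.mul_assoc]

/-- Average purity does not decrease under complexified free operations. -/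
theorem result (g : ι → Matrix n n ℂ) (c : ℝ) (h : IsSetup g c) (N : ℝ) (hN : 0 < N)
    (M : κ → Matrix n n ℂ) (hM : ∀ k, IsCFO g (M k)) (hsum : ∑ k, (M k)ᴴ * M k = 1)
    (ψ : n → ℂ) (hψ : star ψ ⬝ᵥ ψ = 1) :
    purity g N (proj ψ) ≤ ∑ k, prob (M k) ψ * purity g N (proj (post (M k) ψ)) := by
  obtain ⟨β, hβ, hle⟩ := key h M hM hsum ψ
  set S : ℝ := ∑ i, ev g ψ i ^ 2 with hS
  have hp : ∀ k, 0 ≤ prob (M k) ψ := fun k => by
    rw [prob_eq]
    exact nsq_nonneg _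
  have hptot : ∑ k, prob (M k) ψ = 1 := by
    have h1 : ∑ k, prob (M k) ψ = nsq ψ := by
      rw [Finset.sum_congr rfl fun k _ => prob_eq (M k) ψ]
      exact sum_nsq M hsum ψ
    rw [nsq_eq] at hψ
    rw [h1]
    exact_mod_cast hψ
  have h1 : ∀ k, ∑ i, β k i * ev g (M k *ᵥ ψ) i
      ≤ prob (M k) ψ * ((S + ∑ i, ev g (post (M k) ψ) i ^ 2) / 2) := by
    intro k
    have h2 : ∑ i, β k i * ev g (M k *ᵥ ψ) i
        = prob (M k) ψ * ∑ i, β k i * ev g (post (M k) ψ) i := by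
      rw [Finset.mul_sum]
      refine Finset.sum_congr rfl fun i _ => ?_
      rw [← ev_post]
      ring
    rw [h2]
    refine mul_le_mul_of_nonneg_left ?_ (hp k)
    rw [← hβ k, ← Finset.sum_add_distrib, Finset.sum_div]
    refine Finset.sum_le_sum fun i _ => ?_
    nlinarith [sq_nonneg (β k i - ev g (post (M k) ψ) i)]
  have h3 : S ≤ ∑ k, prob (M k) ψ * ((S + ∑ i, ev g (post (M k) ψ) i ^ 2) / 2) :=
    hle.trans (Finset.sum_le_sum fun k _ => h1 k)
  have h4 : ∑ k, prob (M k) ψ * ((S + ∑ i, ev g (post (M k) ψ) i ^ 2) / 2)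
      = S / 2 + (∑ k, prob (M k) ψ * ∑ i, ev g (post (M k) ψ) i ^ 2) / 2 := by
    have h5 : ∀ k, prob (M k) ψ * ((S + ∑ i, ev g (post (M k) ψ) i ^ 2) / 2)
        = prob (M k) ψ * (S / 2) + (prob (M k) ψ * ∑ i, ev g (post (M k) ψ) i ^ 2) / 2 := by
      intro k
      ring
    rw [Finset.sum_congr rfl fun k _ => h5 k, Finset.sum_add_distrib, ← Finset.sum_mul, hptot,
      one_mul, ← Finset.sum_div]
  rw [h4] at h3
  have h6 : S ≤ ∑ k, prob (M k) ψ * ∑ i, ev g (post (M k) ψ) i ^ 2 := by linarith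
  rw [purity_eq]
  have h7 : ∑ k, prob (M k) ψ * purity g N (proj (post (M k) ψ))
      = (∑ k, prob (M k) ψ * ∑ i, ev g (post (M k) ψ) i ^ 2) / N := by
    rw [Finset.sum_div]
    refine Finset.sum_congr rfl fun k _ => ?_
    rw [purity_eq, mul_div_assoc]
  rw [h7]
  exact div_le_div_of_nonneg_right h6 hN.le

end Pool.Agent.Results.MP_5b3ffa_mp.AveragePurity
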